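import Mathlib
import Pool.Agent.W_MP_bb6588_S.Stmt
import Pool.Agent.W_MP_bb6588_S.Stmt2
import Pool.Agent.W_MP_bb6588_G.Main
import Pool.Agent.W_MP_bb6588_G.ProdDiv
import Pool.Agent.W_MP_bb6588_G.ProdAlg
import Pool.Agent.W_MP_bb6588_G.ProdSS

set_option autoImplicit false

open Pool.Agent.W_MP_bb6588_S

namespace Pool.Agent.Results.MP_bb6588_an.Resolution

/-- Non-obvious divergent orbits.

(1) Let `𝔤` be a simple Lie algebra over `ℚ` of rational `N × N` matrices, `S ≤ 𝔤` a subspace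
diagonalizable over `ℚ` (the Lie algebra of a `ℚ`-split torus), `G` a closed subgroup of `SL_N(ℝ)`
containing `exp(𝔤 ⊗ ℝ)` (for instance the group of real points of a `ℚ`-simple algebraic group with
Lie algebra `𝔤`), `Γ` a subgroup of `G` commensurable with `G ∩ SL_N(ℤ)`, and `E ≤ 𝔤 ⊗ ℝ` a real
subspace diagonalizable over `ℝ` (so `D = exp E` is a closed connected subgroup of an `ℝ`-split
torus) with `0 < dim E < dim S`. Then some orbit `D g Γ` in `G/Γ` is divergent and not obvious.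

(2) The restriction to simple `𝔤` cannot be dropped: for `G = SL₂(ℝ) × SL₂(ℝ)` and
`Γ = SL₂(ℤ) × SL₂(ℤ)`, with semisimple Lie algebra and `ℚ`-rank at least `2` (it contains the
two-dimensional `ℚ`-split `diagS`), and for the one-dimensional `D = {(diag(e^t, e^{-t}), 1)}`, every
divergent orbit is obvious. -/
theorem result :
    (∀ (N : ℕ) (𝔤 S : Submodule ℚ (Matrix (Fin N) (Fin N) ℚ))
      (G : Subgroup (Matrix.SpecialLinearGroup (Fin N) ℝ)) (Γ : Subgroup G)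
      (E : Submodule ℝ (Matrix (Fin N) (Fin N) ℝ)),
      IsSimpleLie 𝔤 → S ≤ 𝔤 → IsDiagonalizable S →
      IsClosed (G : Set (Matrix.SpecialLinearGroup (Fin N) ℝ)) →
      (∀ x ∈ realSpan 𝔤, ∃ g ∈ G, (g : Matrix (Fin N) (Fin N) ℝ) = NormedSpace.exp x) →
      Subgroup.Commensurable Γ ((SLZ (Fin N)).subgroupOf G) →
      E ≤ realSpan 𝔤 → IsDiagonalizable E →
      0 < Module.finrank ℝ E → Module.finrank ℝ E < Module.finrank ℚ S →
      ∃ g : G, IsDivergent G Γ E g ∧ ¬ IsObvious G E g) ∧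
    ∃ (𝔤 : Submodule ℚ (Matrix (Fin 2 ⊕ Fin 2) (Fin 2 ⊕ Fin 2) ℚ))
      (G : Subgroup (Matrix.SpecialLinearGroup (Fin 2 ⊕ Fin 2) ℝ)),
      IssL2xsL2 𝔤 ∧ IsSL2xSL2 G ∧ IsSemisimpleLie 𝔤 ∧ diagS ≤ 𝔤 ∧ IsDiagonalizable diagS ∧
      IsClosed (G : Set (Matrix.SpecialLinearGroup (Fin 2 ⊕ Fin 2) ℝ)) ∧
      (∀ x ∈ realSpan 𝔤, ∃ g ∈ G,
        (g : Matrix (Fin 2 ⊕ Fin 2) (Fin 2 ⊕ Fin 2) ℝ) = NormedSpace.exp x) ∧
      lineE ≤ realSpan 𝔤 ∧ IsDiagonalizable lineE ∧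
      Module.finrank ℝ lineE = 1 ∧ Module.finrank ℚ diagS = 2 ∧
      ∀ g : G, IsDivergent G ((SLZ (Fin 2 ⊕ Fin 2)).subgroupOf G) lineE g →
        IsObvious G lineE g := by
  refine ⟨?_, Pool.Agent.W_MP_bb6588_G.g22, Pool.Agent.W_MP_bb6588_G.G22, fun x => Iff.rfl,
    fun g => Iff.rfl,
    ⟨Pool.Agent.W_MP_bb6588_G.isSemisimpleLie_g22.lie,
      Pool.Agent.W_MP_bb6588_G.isSemisimpleLie_g22.ideal⟩,
    Pool.Agent.W_MP_bb6588_G.S22_le, Pool.Agent.W_MP_bb6588_G.SDgQ_S22,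
    Pool.Agent.W_MP_bb6588_G.isClosed_G22, Pool.Agent.W_MP_bb6588_G.exp_mem_G22,
    Pool.Agent.W_MP_bb6588_G.E22_le, Pool.Agent.W_MP_bb6588_G.SDg_E22,
    Pool.Agent.W_MP_bb6588_G.finrank_E22, Pool.Agent.W_MP_bb6588_G.finrank_S22,
    Pool.Agent.W_MP_bb6588_G.obvious_of_divergent⟩
  intro N 𝔤 S G Γ E h𝔤 hS hSD hGc hG hΓ hE hED h1 h2
  exact Pool.Agent.W_MP_bb6588_G.main ⟨h𝔤.1, h𝔤.2.1, h𝔤.2.2⟩ hS hSD G hGc hG Γ hΓ E hE hED h1 h2

end Pool.Agent.Results.MP_bb6588_an.Resolution
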